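import Pool.Agent.W842.KF.Stm

/-!
Project KF, part LAB: from the edge colouring to the labelling.
-/

set_option autoImplicit false

open Pool.Agent.W842.KF

namespace Pool.Agent.W583.KFLab

open Finset

/-- the bad edges -/
def bad {V : Type} (G R : SimpleGraph V) (c : V → V → ℕ) (t : V → ℕ) (p : ℕ)
    (hc : ∀ u v, c u v = c v u) : SimpleGraph V where
  Adj u v := (G \ R).Adj u v ∧ (|(c u v : ℤ) - t u| < p ∨ |(c u v : ℤ) - t v| < p)
  symm := by
    constructor
    rintro u v ⟨h1, h2⟩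
    refine ⟨h1.symm, ?_⟩
    rw [hc v u]
    exact h2.symm
  loopless := ⟨fun u h => (G \ R).loopless.irrefl u h.1⟩

/-- tests next to `t` keep the colour away from `t` -/
theorem away {x t p α b : ℕ} (hp : 1 ≤ p) (hb : 2 * p - 1 ≤ b) (h1 : α ≤ x) (h2 : x < α + b)
    (h3 : ¬ (α ≤ t - (p - 1) ∧ t - (p - 1) < α + b))
    (h4 : ¬ (α ≤ t + (p - 1) ∧ t + (p - 1) < α + b)) : ¬ |(x : ℤ) - t| < p := by
  intro h
  rw [abs_lt] at h
  omega

theorem card_nb {V : Type} [Fintype V] (H : SimpleGraph V) [DecidableRel H.Adj] (v : V) :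
    (nb H v).card = H.degree v := by
  classical
  rw [← SimpleGraph.card_neighborFinset_eq_degree]
  congr 1
  ext u
  rw [mem_nb, SimpleGraph.mem_neighborFinset]

/-- The labelling. -/
theorem t_lab : S_EDGE → S_LAB := by
  classical
  intro hE V _ G _ p hp hK hpD
  set D := G.maxDegree with hD
  obtain ⟨c, hc1, hc2, hc3⟩ := Pool.Agent.H238R2.HY.vizing G D (fun v => G.degree_le_maxDegree v)
  obtain ⟨s, hs1, hs2⟩ := Pool.Agent.H238R2.HY.greedy G D (fun v => G.degree_le_maxDegree v)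
  let y : Fin 4 → V → V → ℕ := fun i v u =>
    ![s v - (p - 1), s v + (p - 1), s u - (p - 1), s u + (p - 1)] i
  obtain ⟨R, c1, hR, hR1, hcol, hlt, hB⟩ := hE V G c (D + 1) 4 (2 * p - 1) y hK (by omega)
    (by omega) hpD ⟨hc1, hc3⟩ (fun v => by
      rw [card_nb]
      exact (G.degree_le_maxDegree v).trans (Nat.le_succ _))
    (fun u v h => Nat.lt_succ_of_le (hc2 u v h))
  choose B hB1 hB2 using hB
  set C := bad G R c1 s p hcol.1 with hC
  have hCB : ∀ v, nb C v ⊆ B v := by
    intro v u hu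
    rw [mem_nb] at hu
    by_contra hnot
    obtain ⟨α, b, h1, h2, h3, h4⟩ := hB2 v u (mem_nb.2 hu.1) hnot
    have e0 := h4 0
    have e1 := h4 1
    have e2 := h4 2
    have e3 := h4 3
    simp only [y, Matrix.cons_val] at e0 e1 e2 e3
    rcases hu.2 with h5 | h5
    · exact away hp h1 h2 h3 e0 e1 h5
    · exact away hp h1 h2 h3 e2 e3 h5
  set L : ℝ := Real.log ((D + 1 : ℕ) : ℝ) with hL
  have hL0 : 0 ≤ L := Real.log_natCast_nonneg _
  have hpr : (1 : ℝ) ≤ p := by exact_mod_cast hp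
  have hd : ((2 * p - 1 : ℕ) : ℝ) = 2 * p - 1 := by
    rw [Nat.cast_sub (by omega)]
    push_cast
    ring
  set w := ⌊64 * (p : ℝ) - 32 + 524 * L⌋₊ with hw
  have hw0 : (0 : ℝ) ≤ 64 * (p : ℝ) - 32 + 524 * L := by linarith
  set Γ := R ⊔ C with hΓ
  have hdeg : ∀ v, Γ.degree v ≤ w := by
    intro v
    rw [hw, Nat.le_floor_iff hw0, ← card_nb]
    have h1 : nb Γ v ⊆ nb R v ∪ B v := by
      intro u hu
      rw [mem_nb, hΓ, SimpleGraph.sup_adj] at hu
      rw [mem_union]
      rcases hu with hu | hu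
      · exact Or.inl (mem_nb.2 hu)
      · exact Or.inr (hCB v (mem_nb.2 hu))
    have h2 : ((nb Γ v).card : ℝ) ≤ (nb R v).card + (B v).card := by
      exact_mod_cast (card_le_card h1).trans (card_union_le _ _)
    have h3 := hR1 v
    have h4 := hB1 v
    rw [hd] at h4
    push_cast at h4
    linarith
  obtain ⟨c2, hv1, hv2, hv3⟩ := Pool.Agent.H238R2.HY.vizing Γ w hdeg
  let eL : V → V → ℕ := fun u v => if Γ.Adj u v then D + p + c2 u v else c1 u v
  have hsymm : ∀ u v, eL u v = eL v u := by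
    intro u v
    simp only [eL]
    by_cases h : Γ.Adj u v
    · rw [if_pos h, if_pos h.symm, hv1 u v]
    · rw [if_neg h, if_neg fun h' => h h'.symm, hcol.1 u v]
  let fE : Sym2 V → ℕ := fun e => Sym2.lift ⟨eL, hsymm⟩ e
  have hfE : ∀ u v, fE s(u, v) = eL u v := fun u v => Sym2.lift_mk _ _ _
  have hold : ∀ u v, G.Adj u v → ¬ Γ.Adj u v → (G \ R).Adj u v ∧ eL u v = c1 u v ∧
      c1 u v ≤ D := by
    intro u v h1 h2
    have h3 : (G \ R).Adj u v := by
      rw [SimpleGraph.sdiff_adj]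
      exact ⟨h1, fun h => h2 (by rw [hΓ, SimpleGraph.sup_adj]; exact Or.inl h)⟩
    refine ⟨h3, ?_, ?_⟩
    · simp only [eL]
      rw [if_neg h2]
    · exact Nat.le_of_lt_succ (hlt u v h3)
  have hnew : ∀ u v, Γ.Adj u v → eL u v = D + p + c2 u v ∧ c2 u v ≤ w := by
    intro u v h
    refine ⟨?_, hv2 u v h⟩
    simp only [eL]
    rw [if_pos h]
  refine ⟨D + 2 * p + w, ?_, s, fE, ?_, ?_, ?_, ?_, ?_⟩
  · have h1 : (w : ℝ) ≤ 64 * (p : ℝ) - 32 + 524 * L := Nat.floor_le hw0
    have h2 : Real.log ((D : ℝ) + 1) = L := by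
      rw [hL]
      push_cast
      rfl
    push_cast
    rw [h2]
    linarith
  · intro v
    have := hs1 v
    omega
  · intro e he
    induction e using Sym2.ind with
    | _ u v =>
      rw [SimpleGraph.mem_edgeSet] at he
      rw [hfE]
      by_cases h : Γ.Adj u v
      · obtain ⟨h1, h2⟩ := hnew u v h
        omega
      · obtain ⟨_, h1, h2⟩ := hold u v he h
        omega
  · exact hs2
  · intro u v v' h1 h2 hne h
    rw [hfE, hfE] at h
    by_cases g1 : Γ.Adj u v
    · obtain ⟨a1, a2⟩ := hnew u v g1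
      by_cases g2 : Γ.Adj u v'
      · obtain ⟨b1, b2⟩ := hnew u v' g2
        exact hv3 u v v' g1 g2 hne (by omega)
      · obtain ⟨_, b1, b2⟩ := hold u v' h2 g2
        omega
    · obtain ⟨a0, a1, a2⟩ := hold u v h1 g1
      by_cases g2 : Γ.Adj u v'
      · obtain ⟨b1, b2⟩ := hnew u v' g2
        omega
      · obtain ⟨b0, b1, b2⟩ := hold u v' h2 g2
        exact hcol.2 u v v' a0 b0 hne (by omega)
  · intro u v h1
    rw [hfE]
    have hsu := hs1 u
    by_cases g1 : Γ.Adj u v
    · obtain ⟨a1, a2⟩ := hnew u v g1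
      rw [a1]
      push_cast
      rw [abs_of_nonpos (by omega)]
      constructor
      · omega
      · omega
    · obtain ⟨a0, a1, a2⟩ := hold u v h1 g1
      rw [a1]
      have h3 : ¬ |(c1 u v : ℤ) - s u| < p := by
        intro h
        apply g1
        rw [hΓ, SimpleGraph.sup_adj]
        exact Or.inr ⟨a0, Or.inl h⟩
      rw [abs_sub_comm] at h3
      refine ⟨not_lt.1 h3, ?_⟩
      rw [abs_le]
      push_cast
      constructor
      · omega
      · omega

end Pool.Agent.W583.KFLab
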